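import Pool.Agent.H57.GM.Main

/-!
# The Hodge conjecture for the powers of a K3 surface and completions of partial matrices

Let `X` be a projective K3 surface over an algebraic extension `k ⊆ ℂ` of a perfect field `F` (for example
`k = F = ℂ`, or `F = ℚ` and `k` the field of the algebraic numbers), and `T` its transcendental part, of
rank `n`. Let `E = End_Hdg(T)`; we suppose that `E` is totally real (`E = ℚ` is allowed), that is, all Hodge
endomorphisms of `T` are self-adjoint (`RealMult T`), and `r` is the dimension of `T` over `E`. By the
reduction recalled in the problem, the Hodge conjecture for all powers of `X` is the statement that all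
Hodge classes in the tensor powers of `T` are algebraic (`AllPowers A`, where `A` is the system of the
algebraic classes).

By the theorem `RealMultiplication` of the library, there is one class `η` in `T^(⊗ r)` such that the Hodge
conjecture for all powers of `X` is true if and only if `η` is algebraic. We regard `η` as a class on
`X × P`, `P = X^(r-1)`, and let the correspondences operate on `X`.

Let `S` be a smooth projective surface over `F` such that `X` is a connected component of `S_k`. For a
smooth projective scheme `Y` over `F` let `H^m(Y) = H^{2m}(P × Y_k)` and let `A^m(Y)` be the subspace of the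
algebraic classes; the cycles `c` of codimension `m - r + 2` on `S × Y` operate by
`c_* : H^r(S) → H^m(Y)`. Let `B^m(Y)` be the sum of `A^m(Y)` and of the one-dimensional spaces `c_* ℚ η`,
for all `c`. The functors `A^m ⊆ B^m` are functors of the Chow motive of `Y`, and `A^m(Y) → B^m(Y)` is
bijective if and only if all `c_* η` are algebraic (`Maps D η m Y`). For a separated scheme `Z` of finite
type over `F` let `W(Z)` be its weight complex (Gillet, Soulé), a complex of Chow motives, with
`W(Z) = h(Z)` for smooth projective `Z`, and `A^{m,i}(Z) = H^i(A^m(W(Z)))`, `B^{m,i}(Z) = H^i(B^m(W(Z)))`.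
`BijAll C Z` says that the maps `A^{m,i}(Z) → B^{m,i}(Z)` are isomorphisms for all `m` and `i`. The
standard properties of these groups (long exact sequences of closed-open decompositions, affine bundles,
`𝔾_m`) are collected in `IsWeightPair`; that smooth projective schemes generate, in each dimension, is
`WeightGen`. If `Y` is of dimension at most one, all `c_* η` are zero, since there are no nonzero morphisms
of Hodge structures from `T` to the cohomology of even degree of `Y`; this known fact enters by the
hypothesis on the `Y` of dimension at most one.

A partial matrix over `F` has prescribed elements of `F` at some places and no elements at the other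
places. For a partial square matrix `g` (`PMat F`) let `g.scheme` be the scheme of the invertible
completions, a smooth affine scheme, the complement of the zero set of one determinant in an affine space;
for a partial matrix `g` (`RMat F`) let `g.scheme` be the scheme of the completions of rank at most three.
A zero pattern `g` (`ZPat`, `RPat`) is a partial matrix all of whose prescribed elements are zero.

**Theorem.** There are finite lists `L` of partial square matrices over `F`, `L'` of partial matrices over
`F`, `G` of square zero patterns and `G'` of zero patterns, which depend only on `S`, such that the elements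
of `L` and `G` have in each row and in each column at most three places without a prescribed zero, and such
that the Hodge conjecture for all powers of `X` is equivalent to each of the following statements.

(1) All the maps `A^{m,i}(Z) → B^{m,i}(Z)` are isomorphisms for the schemes `Z` of the invertible
completions of the elements of `L`.

(2) All the maps are isomorphisms for the schemes `Z` of the completions of rank at most three of the
elements of `L'`.

(3) If every element of `F` is a quotient of integers (`F = ℚ`): all the maps are isomorphisms for the
schemes `Z` of the invertible matrices with zeros at the places of a pattern in `G`; and also: for the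
schemes `Z` of the matrices of rank at most three with zeros at the places of a pattern in `G'`.
-/

set_option autoImplicit false

open CategoryTheory CategoryTheory.Limits AlgebraicGeometry Module Pool.Agent.Y116.UV
  Pool.Agent.Q193.LT Pool.Agent.Q49.WU Pool.Agent.Q68.OV Pool.Agent.W544.PG Pool.Agent.Q56.KD
  Pool.Agent.Q52.RM Pool.Agent.H95.DC Pool.Agent.H95.WC Pool.Agent.H95.PR Pool.Agent.H95.K3
  Pool.Agent.H57.ZP Pool.Agent.H57.GM

universe w u

namespace Pool.Agent.H57.Old.K3MatrixCompletions

/-- **The Hodge conjecture for the powers of a K3 surface and completions of partial matrices.** See the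
explanations above. -/
theorem result {n : ℕ} (T : HS n) (hp : (T.x * T.x).trace = 2) (hR : RealMult T) :
    ∃ r : ℕ, finrank ℚ (Endo T) * r = n ∧ 2 ≤ r ∧
      ∃ η : (Fin r → Fin n) → ℚ, T.IsHodge η ∧ IsAlt η ∧
        ∀ (F : Type) [Field F] [PerfectField F] (S : Sch F), SmoothProj S →
          topologicalKrullDim S.left ≤ (2 : ℕ) →
          ∃ (L : List (PMat F)) (L' : List (RMat F)) (G : List ZPat) (G' : List RPat),
            (∀ g ∈ L, Three g.Z) ∧ (∀ g ∈ G, ThreeZ g.Z) ∧
            ∀ (A : Cyc T) (D : Corr.{w, u} S n r) (C : PairData.{w} F (ℤ × ℤ) ℚ), IsCorr D A →
              IsWeightPair C → WeightGen C →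
              (∀ Y, SmoothProj Y → ∀ m, (BijAt C Prod.fst m Y ↔ Maps D η m Y)) →
              (∀ Y : Sch F, SmoothProj Y → topologicalKrullDim Y.left ≤ (1 : ℕ) → BijAll C Y) →
              (AllPowers A ↔ ∀ g ∈ L, BijAll C g.scheme) ∧
              (AllPowers A ↔ ∀ g ∈ L', BijAll C g.scheme) ∧
              (Frac F → (AllPowers A ↔ ∀ g ∈ G, BijAll C (g.scheme F)) ∧
                (AllPowers A ↔ ∀ g ∈ G', BijAll C (g.scheme F))) := by
  obtain ⟨r, h1, h2, η, h3, h4, h5, -, -⟩ := main T hp hR
  refine ⟨r, h1, h2, η, h3, h4, fun F _ _ S hS _ => ?_⟩
  obtain ⟨L, L', G, G', hL, hG, h⟩ := reach_mat.{w, 0, u} hS 1 (r : ℤ)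
  refine ⟨L, L', G, G', hL, hG, fun A D C hD hC hg bij low => ?_⟩
  have hr : IsReach (toReach D η) := ⟨hD.act_mem, hD.act_diag⟩
  obtain ⟨h7, h8, h9⟩ := h ℚ (toReach D η) C hr hC hg
    (fun Y hY m => (bij Y hY m).trans
      ⟨fun h c x hx => by
        rw [Set.mem_singleton_iff.mp hx]
        exact h c, fun h c => h c _ rfl⟩) low
  have hA : Holds (toReach D η) ↔ AllPowers A := by
    have h11 : Holds (toReach D η) ↔ η ∈ A.alg r :=
      ⟨fun h => (hD.emb_mem η).mp (h _ rfl), fun h x hx => by
        rw [Set.mem_singleton_iff.mp hx]
        exact (hD.emb_mem η).mpr h⟩
    exact h11.trans ((h5 A).out 2 0)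
  simp only [hA] at h7 h8 h9
  exact ⟨h7, h8, h9⟩

end Pool.Agent.H57.Old.K3MatrixCompletions
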